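import Pool.Agent.Helper44.GN.Defs

open Finset MeasureTheory Filter Topology Matrix
open scoped ENNReal ContDiff

namespace Pool.Agent.Helper44.GN

open Pool.Agent.Helper44.GF

/-- The cube has nonnegative integrals. -/
lemma en2_IB_nonneg {n m : ℕ} (hF : ST_FCT) (V W : Matrix (Fin n) (Fin m) ℝ) (α a δ : ℝ)
    (hV : Function.Injective V.mulVec) (hW : Function.Injective W.mulVec) (hp : Pm α a δ)
    (g : (Fin n → ℝ) → ℝ) :
    0 ≤ IB δ (rho V α a) (fun z => Real.exp (g z) * sg V W (Yv α a z)) := by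
  unfold IB
  apply setIntegral_nonneg
  · unfold Bx
    exact MeasurableSet.univ_pi (fun _ => measurableSet_Icc)
  · intro z hz
    have hz0 : ∀ x, 0 < z x := fun x => lt_of_lt_of_le hp.d0 ((hz x (Set.mem_univ x)).1)
    have hY : Yv α a z ∈ Og n := by
      intro x
      have : 0 < a * z x ^ (-(4 / α)) := mul_pos hp.a0 (Real.rpow_pos_of_pos (hz0 x) _)
      simp only [Yv, yy]
      linarith
    obtain ⟨h1, h2, h3, -⟩ := hF n m V W hV hW (Yv α a z) hY
    have hw : 0 ≤ wz z := Finset.prod_nonneg fun x _ => pow_nonneg (hz0 x).le 3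
    have hr : 0 ≤ rho V α a z := mul_nonneg hw (Real.rpow_nonneg h1.le _)
    exact mul_nonneg (mul_nonneg (Real.exp_pos _).le h3) hr

theorem st_EN2 (h1 : ST_ENG) (h2 : ST_FCT) (h3 : ST_DQF) (h4 : ST_SMO) : ST_EN2 := by
  intro n m V W α a δ τ hV hW hp hτ0 hτ1
  have hkey := h1 n m V W α a δ 1 (τ ^ 2 / 2) (fun y => τ * -(Xf V W y))
    (fun x y => τ * -(1 / 2 * (lv W y x - lv V y x))) hV hW hp one_pos le_rfl (by positivity)
    ?_ ?_ ?_ ?_ ?_
  · refine hkey.trans ?_
    have hnn := en2_IB_nonneg h2 V W α a δ hV hW hp (fun z => τ * -(Xf V W (Yv α a z)))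
    have hc : 16 * (τ ^ 2 / 2) / (3 * α ^ 2 * 1) * (2 * (1 - α) + 5 * a) ≤ 11 / 200 * τ ^ 2 := by
      have hα := hp.al
      have hα0 : 0 < α := by linarith
      have ha : a ≤ 1 / 40000 := by
        have := hp.a1
        linarith
      have hα2 : 99 / 100 ≤ α ^ 2 := by nlinarith
      have e1 : 2 * (1 - α) + 5 * a ≤ 11 / 1000 := by linarith
      have e0 : 0 ≤ 2 * (1 - α) + 5 * a := by
        have := hp.a0
        have := hp.au
        linarith
      have e2 : 16 * (τ ^ 2 / 2) / (3 * α ^ 2 * 1) ≤ 3 * τ ^ 2 := by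
        rw [div_le_iff₀ (by positivity)]
        nlinarith [sq_nonneg τ]
      calc 16 * (τ ^ 2 / 2) / (3 * α ^ 2 * 1) * (2 * (1 - α) + 5 * a)
          ≤ 3 * τ ^ 2 * (11 / 1000) := mul_le_mul e2 e1 e0 (by positivity)
        _ ≤ 11 / 200 * τ ^ 2 := by nlinarith [sq_nonneg τ]
    exact mul_le_mul_of_nonneg_right hc hnn
  · refine ⟨?_, ?_, ?_⟩
    · obtain ⟨s1, -, -⟩ := h4 n m V W hV hW
      obtain ⟨s2, -, -⟩ := h4 n m W V hW hV
      have : ContDiffOn ℝ 2 (fun y => τ * -(1 / 2 * (Real.log (qf W y) - Real.log (qf V y))))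
          (Og n) :=
        contDiffOn_const.mul (contDiffOn_const.mul (s2.sub s1)).neg
      exact this
    · intro x
      obtain ⟨-, -, s1, -⟩ := h4 n m V W hV hW
      obtain ⟨-, -, s2, -⟩ := h4 n m W V hW hV
      exact continuousOn_const.mul (continuousOn_const.mul ((s2 x).sub (s1 x))).neg
    · intro y hy x
      have d1 := h3 n m V hV y hy x
      have d2 := h3 n m W hW y hy x
      have d3 := (((d2.sub d1).const_mul (1 / 2)).neg).const_mul τ
      have he : τ * -(1 / 2 * (lv W y x / y x - lv V y x / y x))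
          = τ * -(1 / 2 * (lv W y x - lv V y x)) / y x := by
        ring
      rw [he] at d3
      exact d3
  · intro y hy x
    obtain ⟨-, -, -, -, hx⟩ := h2 n m V W hV hW y hy
    obtain ⟨p0, p1, q0, q1, -⟩ := hx x
    show -1 ≤ τ * -(1 / 2 * (lv W y x - lv V y x))
    nlinarith
  · intro y hy x
    obtain ⟨-, -, -, -, hx⟩ := h2 n m V W hV hW y hy
    obtain ⟨p0, p1, q0, q1, -⟩ := hx x
    show τ * -(1 / 2 * (lv W y x - lv V y x)) ≤ 1 / 2
    nlinarith
  · intro y hy x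
    obtain ⟨-, -, -, -, hx⟩ := h2 n m V W hV hW y hy
    obtain ⟨p0, p1, q0, q1, -⟩ := hx x
    show τ * -(1 / 2 * (lv W y x - lv V y x))
      ≤ (1 - 1) * (lv V y x + lv W y x) + 1 / 2 * lv V y x
    nlinarith [mul_nonneg hτ0 q0, mul_nonneg (sub_nonneg.2 hτ1) p0]
  · intro y hy x
    obtain ⟨-, -, -, -, hx⟩ := h2 n m V W hV hW y hy
    obtain ⟨p0, p1, q0, q1, -, -, hsq, -⟩ := hx x
    show (τ * -(1 / 2 * (lv W y x - lv V y x))) ^ 2
      ≤ τ ^ 2 / 2 * (lv V y x + lv W y x) * d2 V W y x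
    have := mul_le_mul_of_nonneg_left hsq (show 0 ≤ τ ^ 2 / 4 by positivity)
    nlinarith [this]

end Pool.Agent.Helper44.GN
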